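import Pool.Agent.H85.LF.EN3
import Pool.Agent.H67.AG.T1

/-!
ENTROPY DECREMENT FOR WORDS (project LF, `MP_c59857_nt`, page `H28_LF.md`, 8.7): transfer to
ergodic systems with flags (generic points, the Chinese remainder theorem for the flags).
-/

set_option autoImplicit false

open MeasureTheory ProbabilityTheory Filter Topology Finset

namespace Pool.Agent.H85.LF

open Pool.Agent.H24.MR (FinAddInv dens)
open Pool.Agent.H59.MR
open Pool.Agent.H24.T2 (Pset)
open Pool.Agent.H67.AG (T_ME Av Inv)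

/-- in an ergodic system the conditional expectation is the mean -/
theorem condExp_erg {Ω : Type} [MeasurableSpace Ω] {P : Measure Ω} [IsProbabilityMeasure P]
    {T : Ω ≃ᵐ Ω} (hT : Ergodic T P) (f : Ω → ℝ) :
    P[f | Inv T 1] =ᵐ[P] fun _ => ∫ ω, f ω ∂P := by
  have hm : Inv T 1 ≤ ‹MeasurableSpace Ω› := MeasurableSpace.invariants_le _
  have hsm : Measurable[Inv T 1] (P[f | Inv T 1]) := stronglyMeasurable_condExp.measurable
  have hinv : (P[f | Inv T 1]) ∘ T = P[f | Inv T 1] := by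
    funext ω
    have h := (MeasurableSpace.measurable_invariants_dom.1 hsm).2
    have h2 := h {(P[f | Inv T 1]) ω} (measurableSet_singleton _)
    have h3 : ω ∈ (T^[1]) ⁻¹' ((P[f | Inv T 1]) ⁻¹' {(P[f | Inv T 1]) ω}) := by
      have h4 : ω ∈ (P[f | Inv T 1]) ⁻¹' {(P[f | Inv T 1]) ω} := rfl
      rw [← h2] at h4
      exact h4
    exact h3
  obtain ⟨c, hc⟩ := hT.quasiErgodic.ae_eq_const_of_ae_eq_comp₀
    ((hsm.mono hm le_rfl).nullMeasurable) (by rw [hinv])
  have h1 : ∫ ω, (P[f | Inv T 1]) ω ∂P = ∫ ω, f ω ∂P := integral_condExp hm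
  rw [integral_congr_ae hc] at h1
  simp only [Function.const_apply, integral_const, smul_eq_mul, probReal_univ, one_mul] at h1
  rw [← h1]
  exact hc

/-- generic points for finitely many functions, along a subsequence -/
theorem generic (hME : T_ME) {Ω : Type} [MeasurableSpace Ω] {P : Measure Ω}
    [IsProbabilityMeasure P] {T : Ω ≃ᵐ Ω} (hT : Ergodic T P) {ι : Type} [Fintype ι]
    (f : ι → Ω → ℝ) (hf : ∀ i, Measurable (f i)) (hb : ∀ i ω, |f i ω| ≤ 1) :
    ∃ ns : ℕ → ℕ, StrictMono ns ∧ ∀ᵐ ω ∂P, ∀ i,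
      Tendsto (fun j => Av T 1 (ns j) (f i) ω) atTop (𝓝 (∫ ω, f i ω ∂P)) := by
  classical
  have hAm : ∀ i n, Measurable (Av T 1 n (f i)) := by
    intro i n
    unfold Av
    refine Measurable.div_const (Finset.measurable_sum _ fun l _ => ?_) _
    exact (hf i).comp (T.measurable.iterate _)
  have hfi : ∀ i, Integrable (f i) P := fun i =>
    (integrable_const (1 : ℝ)).mono' (hf i).aestronglyMeasurable
      (ae_of_all _ fun ω => by simpa [Real.norm_eq_abs] using hb i ω)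
  have hAb : ∀ i n ω, |Av T 1 n (f i) ω| ≤ 1 := by
    intro i n ω
    unfold Av
    rcases Nat.eq_zero_or_pos n with h0 | h0
    · subst h0; simp
    have hn : (0 : ℝ) < n := by exact_mod_cast h0
    rw [abs_div, abs_of_pos hn, div_le_one hn]
    calc |∑ l ∈ range n, f i (T^[1 * l] ω)| ≤ ∑ l ∈ range n, |f i (T^[1 * l] ω)| :=
          Finset.abs_sum_le_sum_abs _ _
      _ ≤ ∑ l ∈ range n, (1 : ℝ) := Finset.sum_le_sum fun l _ => hb i _
      _ = n := by simp
  set g : ℕ → Ω → ℝ := fun n ω => ∑ i, (Av T 1 n (f i) ω - ∫ ω, f i ω ∂P) ^ 2 with hg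
  have hcb : ∀ i, |∫ ω, f i ω ∂P| ≤ 1 := by
    intro i
    calc |∫ ω, f i ω ∂P| ≤ ∫ ω, |f i ω| ∂P := abs_integral_le_integral_abs
      _ ≤ ∫ _, (1 : ℝ) ∂P := by
          refine integral_mono (hfi i).abs (integrable_const _) fun ω => hb i ω
      _ = 1 := by simp
  have hgm : ∀ n, Measurable (g n) := fun n =>
    Finset.measurable_sum _ fun i _ => ((hAm i n).sub_const _).pow_const _
  have hg0 : ∀ n ω, 0 ≤ g n ω := fun n ω => Finset.sum_nonneg fun i _ => sq_nonneg _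
  have hsqi : ∀ i n, Integrable (fun ω => (Av T 1 n (f i) ω - ∫ ω, f i ω ∂P) ^ 2) P := by
    intro i n
    refine (integrable_const (4 : ℝ)).mono' (((hAm i n).sub_const _).pow_const _).aestronglyMeasurable
      (ae_of_all _ fun ω => ?_)
    rw [Real.norm_eq_abs, abs_of_nonneg (sq_nonneg _)]
    have h1 := abs_le.1 (hAb i n ω)
    have h2 := abs_le.1 (hcb i)
    nlinarith
  have hgi : ∀ n, Integrable (g n) P := fun n => integrable_finsetSum _ fun i _ => hsqi i n
  have hlim : Tendsto (fun n => ∫ ω, g n ω ∂P) atTop (𝓝 0) := by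
    have h1 : ∀ i, Tendsto (fun n => ∫ ω, (Av T 1 n (f i) ω - ∫ ω, f i ω ∂P) ^ 2 ∂P) atTop
        (𝓝 0) := by
      intro i
      have h := hME Ω P T 1 (f i) hT.toMeasurePreserving (hf i) (hb i)
      refine h.congr fun n => integral_congr_ae ?_
      filter_upwards [condExp_erg hT (f i)] with ω hω
      rw [hω]
    have h2 := tendsto_finsetSum (Finset.univ : Finset ι) fun i _ => h1 i
    simp only [Finset.sum_const_zero] at h2
    refine h2.congr fun n => ?_
    simp only [hg]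
    rw [integral_finsetSum _ fun i _ => hsqi i n]
  have hmeas : TendstoInMeasure P g atTop (fun _ => (0 : ℝ)) := by
    refine tendstoInMeasure_of_tendsto_eLpNorm (p := 1) one_ne_zero
      (fun n => (hgm n).aestronglyMeasurable) aestronglyMeasurable_const ?_
    have h1 : ∀ n, eLpNorm (g n - fun _ => (0 : ℝ)) 1 P = ENNReal.ofReal (∫ ω, g n ω ∂P) := by
      intro n
      rw [eLpNorm_one_eq_lintegral_enorm, ofReal_integral_eq_lintegral_ofReal (hgi n)
        (ae_of_all _ fun ω => hg0 n ω)]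
      refine lintegral_congr fun ω => ?_
      simp only [Pi.sub_apply, sub_zero]
      rw [Real.enorm_eq_ofReal (hg0 n ω)]
    simp only [h1]
    have h2 := (ENNReal.continuous_ofReal.tendsto 0).comp hlim
    rw [ENNReal.ofReal_zero] at h2
    exact h2
  obtain ⟨ns, hns, hae⟩ := hmeas.exists_seq_tendsto_ae
  refine ⟨ns, hns, ?_⟩
  filter_upwards [hae] with ω hω i
  have h1 : Tendsto (fun j => (Av T 1 (ns j) (f i) ω - ∫ ω, f i ω ∂P) ^ 2) atTop (𝓝 0) := by
    refine squeeze_zero (fun j => sq_nonneg _) (fun j => ?_) hω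
    simp only [hg]
    exact Finset.single_le_sum (f := fun i => (Av T 1 (ns j) (f i) ω - ∫ ω, f i ω ∂P) ^ 2)
      (fun i _ => sq_nonneg _) (Finset.mem_univ i)
  have h2 : Tendsto (fun j => Av T 1 (ns j) (f i) ω - ∫ ω, f i ω ∂P) atTop (𝓝 0) := by
    have h3 := (Real.continuous_sqrt.tendsto 0).comp h1
    simp only [Real.sqrt_zero] at h3
    have h4 : Tendsto (fun j => |Av T 1 (ns j) (f i) ω - ∫ ω, f i ω ∂P|) atTop (𝓝 0) := by
      refine h3.congr fun j => ?_
      simp only [Function.comp_apply, Real.sqrt_sq_eq_abs]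
    exact (tendsto_zero_iff_abs_tendsto_zero _).2 h4
  have h3 := h2.add_const (∫ ω, f i ω ∂P)
  simpa using h3

/-- the word of length `k` which a point sees along the prime `p` -/
def Wp {Ω α : Type} [MeasurableSpace Ω] (T : Ω ≃ᵐ Ω) (a : Ω → α) (k p : ℕ) (ω : Ω) : Fin k → α :=
  fun i => a (T^[p * ((i : ℕ) + 1)] ω)

/-- decoupling at the scale `m` for a process with flags -/
def DecS {Ω α : Type} [MeasurableSpace Ω] (k : ℕ) (P : Measure Ω) (T : Ω ≃ᵐ Ω) (a : Ω → α)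
    (D : ℕ → Set Ω) (θ : ℝ) (m : ℕ) : Prop :=
  ∃ X : Finset ℕ, (X.card : ℝ) ≤ θ * (Pset 2 m).card ∧
    ∀ p ∈ Pset 2 m, p ∉ X → ∀ G : Set (Fin k → α),
      P.real {ω | Wp T a k p ω ∈ G} ≤
        10 * (p * P.real {ω | ω ∈ D p ∧ Wp T a k p ω ∈ G}) + θ

theorem Pset_one_two {m : ℕ} (hm : 1 ≤ m) : Pool.Agent.H18.MR.Pset 1 m = Pset 2 m := by
  unfold Pool.Agent.H18.MR.Pset Pset
  apply filter_congr
  intro p hp
  rw [mem_Ioc] at hp
  have h2 : 2 < p := lt_of_le_of_lt (by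
    calc 2 = 2 ^ 1 := rfl
      _ ≤ 2 ^ m := Nat.pow_le_pow_right (by norm_num) hm) hp.1
  constructor
  · rintro ⟨h, _⟩
    refine ⟨h, ?_⟩
    rcases h.eq_two_or_odd with h3 | h3
    · omega
    · exact h3
  · rintro ⟨h, _⟩
    exact ⟨h, Nat.modEq_one⟩

/-- the transfer from finitely additive measures to ergodic systems with flags -/
theorem decS_of_decW (hME : T_ME) {Ω : Type} [MeasurableSpace Ω] {P : Measure Ω}
    [IsProbabilityMeasure P] {T : Ω ≃ᵐ Ω} (hT : Ergodic T P) {α : Type} [Fintype α]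
    [MeasurableSpace α] [MeasurableSingletonClass α] (k : ℕ) (θ : ℝ) (a : Ω → α)
    (ha : Measurable a) (D : ℕ → Set Ω) (hD : ∀ p, MeasurableSet (D p))
    (hfl : ∀ p : ℕ, p.Prime → ∀ᵐ ω ∂P, ∃ r : ℕ, ∀ n, T^[n] ω ∈ D p ↔ p ∣ n + r) (M : Finset ℕ)
    (hM : ∀ m ∈ M, 1 ≤ m) :
    ∃ (ν : Set ℕ → ℝ) (b : ℕ → α), FinAddInv ν ∧
      ∀ m ∈ M, DecW k ν b 1 0 θ m → DecS k P T a D θ m := by
  classical
  set S : Finset ℕ := M.biUnion fun m => Pset 2 m with hS
  have hSp : ∀ p ∈ S, p.Prime := by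
    intro p hp
    obtain ⟨m, _, h⟩ := mem_biUnion.1 hp
    exact (mem_filter.1 h).2.1
  -- the functions
  let G1 : S × Set (Fin k → α) × Bool → Set Ω := fun i =>
    if i.2.2 then {ω | ω ∈ D i.1.1 ∧ Wp T a k i.1.1 ω ∈ i.2.1} else {ω | Wp T a k i.1.1 ω ∈ i.2.1}
  have hWm : ∀ p, Measurable (Wp T a k p) := fun p =>
    measurable_pi_lambda _ fun i => ha.comp (T.measurable.iterate _)
  have hGs : ∀ G : Set (Fin k → α), MeasurableSet G := fun G => (Set.toFinite G).measurableSet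
  have hG1 : ∀ i, MeasurableSet (G1 i) := by
    intro i
    simp only [G1]
    split_ifs
    · exact (hD _).inter (hWm _ (hGs _))
    · exact hWm _ (hGs _)
  obtain ⟨ns, hns, hgen⟩ := generic hME hT (fun i => (G1 i).indicator fun _ => (1 : ℝ))
    (fun i => measurable_const.indicator (hG1 i)) (fun i ω => by
      by_cases h : ω ∈ G1 i
      · simp [h]
      · simp [h])
  have hae2 : ∀ᵐ ω ∂P, ∀ p ∈ S, ∃ r : ℕ, ∀ n, T^[n] ω ∈ D p ↔ p ∣ n + r := by
    have := (Finset.eventually_all S).2 fun p hp => hfl p (hSp p hp)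
    exact this
  obtain ⟨ω, hω1, hω2⟩ := (hgen.and hae2).exists
  choose! r hr using hω2
  -- CRT
  have hco : (S : Set ℕ).Pairwise (Function.onFun Nat.Coprime fun p => p) := by
    intro p hp q hq hpq
    exact (Nat.coprime_primes (hSp p hp) (hSp q hq)).2 hpq
  obtain ⟨c, hc⟩ := Nat.chineseRemainderOfFinset r (fun p => p) S
    (fun p hp => (hSp p hp).ne_zero) hco
  have hdvd : ∀ p ∈ S, ∀ n, p ∣ n + c ↔ T^[n] ω ∈ D p := by
    intro p hp n
    rw [hr p hp n]
    have h1 : n + c ≡ n + r p [MOD p] := Nat.ModEq.add_left n (hc p hp)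
    rw [← Nat.modEq_zero_iff_dvd, ← Nat.modEq_zero_iff_dvd]
    exact ⟨fun h => h1.symm.trans h, fun h => h1.trans h⟩
  set U : Ultrafilter ℕ := hyperfilter ℕ with hU
  have hUat : (U : Filter ℕ) ≤ atTop := Nat.hyperfilter_le_atTop
  have hNU : Tendsto ns (U : Filter ℕ) atTop := hns.tendsto_atTop.mono_left hUat
  have hfa := finAddInv_dens (U := U) (N := ns) hNU
  refine ⟨dens U ns, fun y => a (T^[y - c] ω), hfa, ?_⟩
  -- densities
  have hdens : ∀ i, dens U ns {n | T^[n] ω ∈ G1 i} = P.real (G1 i) := by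
    intro i
    apply dens_eq_of_tendsto
    have h1 := (hω1 i).mono_left hUat
    have h2 : ∫ ω, (G1 i).indicator (fun _ => (1 : ℝ)) ω ∂P = P.real (G1 i) := by
      rw [integral_indicator (hG1 i)]
      simp
    rw [h2] at h1
    refine h1.congr fun j => ?_
    unfold Av ratio
    congr 1
    rw [Finset.card_filter]
    push_cast
    refine Finset.sum_congr rfl fun l _ => ?_
    rw [one_mul]
    by_cases h : T^[l] ω ∈ G1 i
    · simp [h]
    · simp [h]
  have hword : ∀ p n, wrd (fun y => a (T^[y - c] ω)) k p (n + c) = Wp T a k p (T^[n] ω) := by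
    intro p n
    funext i
    simp only [wrd, Wp]
    rw [← Function.iterate_add_apply]
    congr 2
    have : n + c + p * ((i : ℕ) + 1) - c = p * ((i : ℕ) + 1) + n := by omega
    rw [this]
  have e1 : ∀ p ∈ S, ∀ G : Set (Fin k → α),
      dens U ns {y | y ≡ 0 [MOD 1] ∧ wrd (fun y => a (T^[y - c] ω)) k p y ∈ G} =
        P.real {ω | Wp T a k p ω ∈ G} := by
    intro p hp G
    rw [← fai_shift' hfa c]
    have h := hdens (⟨p, hp⟩, G, false)
    simp only [G1] at h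
    simp only [Bool.false_eq_true, if_false] at h
    rw [← h]
    congr 1
    ext n
    simp only [Set.mem_ofPred_eq, hword]
    exact ⟨fun h => h.2, fun h => ⟨Nat.modEq_one, h⟩⟩
  have e2 : ∀ p ∈ S, ∀ G : Set (Fin k → α),
      dens U ns {y | y ≡ 0 [MOD 1] ∧ p ∣ y ∧ wrd (fun y => a (T^[y - c] ω)) k p y ∈ G} =
        P.real {ω | ω ∈ D p ∧ Wp T a k p ω ∈ G} := by
    intro p hp G
    rw [← fai_shift' hfa c]
    have h := hdens (⟨p, hp⟩, G, true)
    simp only [G1] at h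
    simp only [if_true] at h
    rw [← h]
    congr 1
    ext n
    simp only [Set.mem_ofPred_eq, hword, hdvd p hp n]
    exact ⟨fun h => h.2, fun h => ⟨Nat.modEq_one, h⟩⟩
  rintro m hm ⟨X, hX, hX2⟩
  rw [Pset_one_two (hM m hm)] at hX hX2
  refine ⟨X, hX, fun p hp hpX G => ?_⟩
  have hpS : p ∈ S := mem_biUnion.2 ⟨m, hm, hp⟩
  have h := hX2 p hp hpX G
  rw [e1 p hpS G, e2 p hpS G] at h
  simpa using h

/-- [EN4] entropy decrement for words, for all ergodic systems with flags -/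
theorem en4 (hME : T_ME) : ∀ (k : ℕ) (α : Type) [Fintype α] [MeasurableSpace α]
    [MeasurableSingletonClass α] (θ ρ : ℝ) (m₀ : ℕ), 0 < θ → 0 < ρ →
    ∃ (M : Finset ℕ) (wt : ℕ → ℝ), (∀ m ∈ M, m₀ ≤ m ∧ (Pset 2 m).Nonempty ∧ 0 ≤ wt m) ∧
      ∑ m ∈ M, wt m = 1 ∧
      ∀ (Ω : Type) [MeasurableSpace Ω] (P : Measure Ω) [IsProbabilityMeasure P] (T : Ω ≃ᵐ Ω)
        (a : Ω → α) (D : ℕ → Set Ω), Ergodic T P → Measurable a → (∀ p, MeasurableSet (D p)) →
        (∀ p : ℕ, p.Prime → ∀ᵐ ω ∂P, ∃ r : ℕ, ∀ n, T^[n] ω ∈ D p ↔ p ∣ n + r) →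
        ∀ Bad : Finset ℕ, Bad ⊆ M → (∀ m ∈ Bad, ¬ DecS k P T a D θ m) → ∑ m ∈ Bad, wt m ≤ ρ := by
  intro k α _ _ _ θ ρ m₀ hθ hρ
  obtain ⟨c₀, hc₀, hen⟩ := en3
  obtain ⟨M, wt, hM, hsum, hmain⟩ := hen 1 k α θ ρ (m₀ + 1) one_pos hθ hρ
  refine ⟨M, wt, fun m hm => ⟨by have := (hM m hm).1; omega, ?_, (hM m hm).2.2⟩, hsum, ?_⟩
  · have h := (hM m hm).2.1
    have h1 : 1 ≤ m := by have := (hM m hm).1; omega
    rw [Pset_one_two h1] at h
    rw [← Finset.card_pos]
    have h2 : (0 : ℝ) < m := by exact_mod_cast h1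
    have h3 : 0 < c₀ * 2 ^ m / ((Nat.totient 1 : ℕ) * (m : ℝ)) := by
      simp only [Nat.totient_one, Nat.cast_one, one_mul]
      positivity
    exact_mod_cast lt_of_lt_of_le h3 h
  · intro Ω _ P _ T a D hT ha hD hfl Bad hBad hnd
    obtain ⟨ν, b, hν, h⟩ := decS_of_decW hME hT k θ a ha D hD hfl M
      (fun m hm => by have := (hM m hm).1; omega)
    exact hmain ν hν b 0 Bad hBad fun m hm hdec => hnd m hm (h m (hBad hm) hdec)

end Pool.Agent.H85.LF
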