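import Pool.Agent.H24.AG.Targets
import Pool.Agent.H85.GU.Star5

/-!
LOCAL FOURIER UNIFORMITY OF `λ(n!)` (`MP_c59857_nt`, page `H28_LF.md`), section 2: limits of
`avg_p cos (2 π x p d)` over the odd primes in dyadic intervals.
-/

set_option autoImplicit false

open MeasureTheory ProbabilityTheory Filter Topology Finset

namespace Pool.Agent.H85.LF

open Pool.Agent.H24.AG (T_VPR T_VEC T_VDY Pc ee)
open Pool.Agent.H24.T2 (Pset)
open Pool.Agent.H67.AG (avgP ul Inv)
open Pool.Agent.H85.GU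

noncomputable section

/-- `cos (2 π x n)` -/
def cs (x : ℝ) (n : ℕ) : ℝ := Real.cos (2 * Real.pi * (x * n))

lemma abs_cs_le (x : ℝ) (n : ℕ) : |cs x n| ≤ 1 := Real.abs_cos_le_one _

lemma ee_re (x : ℝ) : (ee x).re = Real.cos (2 * Real.pi * x) := by
  unfold ee
  have h : 2 * (Real.pi : ℂ) * Complex.I * (x : ℂ) = ((2 * Real.pi * x : ℝ) : ℂ) * Complex.I := by
    push_cast; ring
  rw [h, Complex.exp_ofReal_mul_I_re]

lemma Pset_eq (m : ℕ) (hm : 1 ≤ m) :
    Pset 2 m = (Finset.Ioc (2 ^ m) (2 ^ (m + 1))).filter Nat.Prime := by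
  unfold Pset
  apply filter_congr
  intro p hp
  rw [mem_Ioc] at hp
  have h2 : 2 < p := lt_of_le_of_lt (by
    calc 2 = 2 ^ 1 := rfl
      _ ≤ 2 ^ m := Nat.pow_le_pow_right (by norm_num) hm) hp.1
  constructor
  · rintro ⟨h, _⟩; exact h
  · intro h
    refine ⟨h, ?_⟩
    have := h.eq_two_or_odd
    rcases this with h3 | h3
    · omega
    · exact h3

lemma lim_irr (hV : T_VPR) (hD : T_VDY) {x : ℝ} (hx : Irrational x) {d : ℕ} (hd : 0 < d) :
    Tendsto (fun m => avgP 2 m fun p => cs x (p * d)) atTop (𝓝 0) := by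
  obtain ⟨c, hc, m1, hm1⟩ := hD
  have hθ : Irrational (x * d) := hx.mul_natCast hd.ne'
  rw [Metric.tendsto_atTop]
  intro ε hε
  obtain ⟨m2, hm2⟩ := hV (x * d) hθ (c * ε / 2) (by positivity)
  refine ⟨m1 + m2 + 1, fun m hm => ?_⟩
  have h1 := hm1 m (by omega)
  have h2 := hm2 m (by omega)
  rw [← Pset_eq m (by omega)] at h1 h2
  have hm0 : (0 : ℝ) < m := by
    have : 0 < m := by omega
    exact_mod_cast this
  have hN : (0 : ℝ) < ((Pset 2 m).card : ℝ) := lt_of_lt_of_le (by positivity) h1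
  rw [Real.dist_eq, sub_zero]
  unfold avgP
  rw [abs_div, abs_of_pos hN, div_lt_iff₀ hN]
  have h3 : |∑ p ∈ Pset 2 m, cs x (p * d)| ≤ ‖∑ p ∈ Pset 2 m, ee (x * d * p)‖ := by
    have e : ∑ p ∈ Pset 2 m, cs x (p * d) = (∑ p ∈ Pset 2 m, ee (x * d * p)).re := by
      rw [Complex.re_sum]
      apply sum_congr rfl
      intro p _
      rw [ee_re]
      unfold cs
      congr 1
      push_cast
      ring
    rw [e]
    exact Complex.abs_re_le_norm _
  calc |∑ p ∈ Pset 2 m, cs x (p * d)| ≤ c * ε / 2 * 2 ^ m / m := h3.trans h2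
    _ = ε / 2 * (c * 2 ^ m / m) := by ring
    _ ≤ ε / 2 * (Pset 2 m).card := by gcongr
    _ < ε * (Pset 2 m).card := by
        apply mul_lt_mul_of_pos_right _ hN
        linarith

/-- the reduced residues -/
def Sr (r : ℕ) : Finset ℕ := (range r).filter (fun b => b.Coprime r)

lemma Sr_card (r : ℕ) [NeZero r] : ((Sr r).card : ℝ) = (Fintype.card (ZMod r)ˣ : ℝ) := by
  have h := units_sum_eq r (fun _ => (1 : ℝ))
  rw [← sum_filter] at h
  simp only [sum_const, card_univ, nsmul_eq_mul, mul_one] at h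
  rw [h]
  rfl

lemma cs_periodic (q : ℚ) (d k n : ℕ) : cs (q : ℝ) ((k + q.den * n) * d) = cs (q : ℝ) (k * d) := by
  unfold cs
  have hr : ((q.den : ℕ) : ℝ) ≠ 0 := by exact_mod_cast q.den_pos.ne'
  have hq : (q : ℝ) = (q.num : ℝ) / (q.den : ℝ) := by exact_mod_cast (Rat.num_div_den q).symm
  have e : 2 * Real.pi * ((q : ℝ) * (((k + q.den * n) * d : ℕ) : ℝ))
      = 2 * Real.pi * ((q : ℝ) * ((k * d : ℕ) : ℝ)) + ((q.num * n * d : ℤ) : ℝ) * (2 * Real.pi) := by
    rw [hq]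
    push_cast
    field_simp
  rw [e, Real.cos_add_int_mul_two_pi]

lemma cc_eq_sum (q : ℚ) (d : ℕ) [NeZero q.den] :
    cc q.den ((q.num : ℤ) : ZMod q.den) d = ∑ b ∈ Sr q.den, cs (q : ℝ) (b * d) := by
  unfold cc
  rw [units_sum_eq q.den (fun b => (ZMod.stdAddChar (((q.num : ℤ) : ZMod q.den) * b * (d : ZMod q.den)) : ℂ).re)]
  unfold Sr
  rw [sum_filter]
  apply sum_congr rfl
  intro k _
  split_ifs
  · have e : ((q.num : ℤ) : ZMod q.den) * (k : ZMod q.den) * (d : ZMod q.den)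
        = ((q.num * k * d : ℤ) : ZMod q.den) := by push_cast; ring
    rw [e, ZMod.stdAddChar_coe]
    have hq : (q : ℝ) = (q.num : ℝ) / (q.den : ℝ) := by exact_mod_cast (Rat.num_div_den q).symm
    have e2 : 2 * (Real.pi : ℂ) * Complex.I * ((q.num * k * d : ℤ) : ℂ) / (q.den : ℂ)
        = ((2 * Real.pi * ((q : ℝ) * ((k * d : ℕ) : ℝ)) : ℝ) : ℂ) * Complex.I := by
      rw [hq]
      push_cast
      ring
    rw [e2, Complex.exp_ofReal_mul_I_re]
    rfl
  · rfl

lemma Pset_eq_biUnion {r m : ℕ} (hr : 0 < r) (hm : 1 ≤ m) (hrm : r ≤ 2 ^ m) (g : ℕ → ℝ)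
    (hg : ∀ k n, g (k + r * n) = g k) :
    ∑ p ∈ Pset 2 m, g p = ∑ b ∈ Sr r, ((Pc r b m).card : ℝ) * g b := by
  rw [Pset_eq m hm]
  have h1 : ∀ p ∈ (Finset.Ioc (2 ^ m) (2 ^ (m + 1))).filter Nat.Prime, p % r ∈ Sr r := by
    intro p hp
    rw [mem_filter, mem_Ioc] at hp
    unfold Sr
    rw [mem_filter, mem_range]
    refine ⟨Nat.mod_lt _ hr, ?_⟩
    have h2 : Nat.Coprime p r := by
      rw [Nat.Prime.coprime_iff_not_dvd hp.2]
      intro h5
      have := Nat.le_of_dvd hr h5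
      omega
    unfold Nat.Coprime at h2 ⊢
    rw [← h2, Nat.gcd_comm p r, ← Nat.gcd_rec, Nat.gcd_comm]
  rw [← sum_fiberwise_of_maps_to h1]
  apply sum_congr rfl
  intro b hb
  unfold Sr at hb
  rw [mem_filter, mem_range] at hb
  have h2 : ((Finset.Ioc (2 ^ m) (2 ^ (m + 1))).filter Nat.Prime).filter (fun p => p % r = b)
      = Pc r b m := by
    unfold Pc
    rw [filter_filter]
    apply filter_congr
    intro p _
    constructor
    · rintro ⟨h3, h4⟩
      refine ⟨h3, ?_⟩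
      unfold Nat.ModEq
      rw [h4, Nat.mod_eq_of_lt hb.1]
    · rintro ⟨h3, h4⟩
      refine ⟨h3, ?_⟩
      unfold Nat.ModEq at h4
      rw [h4, Nat.mod_eq_of_lt hb.1]
  rw [h2]
  have h3 : ∀ p ∈ Pc r b m, g p = g b := by
    intro p hp
    unfold Pc at hp
    rw [mem_filter] at hp
    have h4 : p % r = b := by
      have := hp.2.2
      unfold Nat.ModEq at this
      rw [this, Nat.mod_eq_of_lt hb.1]
    have h5 := hg (p % r) (p / r)
    rw [Nat.mod_add_div] at h5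
    rw [h5, h4]
  rw [sum_congr rfl h3, sum_const, nsmul_eq_mul]

lemma lim_rat (hE : T_VEC) (hD : T_VDY) (q : ℚ) (d : ℕ) [NeZero q.den] :
    Tendsto (fun m => avgP 2 m fun p => cs (q : ℝ) (p * d)) atTop
      (𝓝 (cc q.den ((q.num : ℤ) : ZMod q.den) d / (Fintype.card (ZMod q.den)ˣ : ℝ))) := by
  obtain ⟨c, hc, m1, hm1⟩ := hD
  set r := q.den with hr
  have hr0 : 0 < r := q.den_pos
  set S := Sr r with hS
  have hScard : 0 < S.card := by
    have h := Sr_card r
    have h2 : (0 : ℝ) < (Fintype.card (ZMod r)ˣ : ℝ) := by exact_mod_cast Fintype.card_pos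
    rw [← h] at h2
    exact_mod_cast h2
  have hSR : (0 : ℝ) < S.card := by exact_mod_cast hScard
  rw [Metric.tendsto_atTop]
  intro ε hε
  set ε' : ℝ := ε * c / (2 * S.card) with hε'
  have hε'0 : 0 < ε' := by positivity
  have hex : ∀ b b' : ℕ, ∃ m₀ : ℕ, b ∈ S → b' ∈ S → ∀ m : ℕ, m₀ ≤ m →
      |((Pc r b m).card : ℝ) - (Pc r b' m).card| ≤ ε' * 2 ^ m / m := by
    intro b b'
    by_cases hb : b ∈ S
    · by_cases hb' : b' ∈ S
      · obtain ⟨m₀, h⟩ := hE r b b' ε' hr0 (mem_filter.mp hb).2 (mem_filter.mp hb').2 hε'0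
        exact ⟨m₀, fun _ _ => h⟩
      · exact ⟨0, fun _ h => absurd h hb'⟩
    · exact ⟨0, fun h => absurd h hb⟩
  choose f hf using hex
  refine ⟨m1 + r + 1 + ∑ b ∈ S, ∑ b' ∈ S, f b b', fun m hm => ?_⟩
  have hfm : ∀ b ∈ S, ∀ b' ∈ S, f b b' ≤ m := by
    intro b hb b' hb'
    have h1 : f b b' ≤ ∑ b' ∈ S, f b b' := single_le_sum (f := f b) (fun _ _ => Nat.zero_le _) hb'
    have h2 : ∑ b' ∈ S, f b b' ≤ ∑ b ∈ S, ∑ b' ∈ S, f b b' :=
      single_le_sum (f := fun b => ∑ b' ∈ S, f b b') (fun _ _ => Nat.zero_le _) hb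
    omega
  have hm1' := hm1 m (by omega)
  rw [← Pset_eq m (by omega)] at hm1'
  have hm0 : (0 : ℝ) < m := by
    have : 0 < m := by omega
    exact_mod_cast this
  have hrm : r ≤ 2 ^ m := by
    have h1 : r ≤ m := by omega
    exact h1.trans Nat.lt_two_pow_self.le
  have hN : (0 : ℝ) < ((Pset 2 m).card : ℝ) := lt_of_lt_of_le (by positivity) hm1'
  have hsum := Pset_eq_biUnion hr0 (show 1 ≤ m by omega) hrm (fun p => cs (q : ℝ) (p * d))
    (fun k n => cs_periodic q d k n)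
  have hone := Pset_eq_biUnion hr0 (show 1 ≤ m by omega) hrm (fun _ => (1 : ℝ)) (fun _ _ => rfl)
  simp only [sum_const, nsmul_eq_mul, mul_one] at hone
  have hcc := cc_eq_sum q d
  rw [Real.dist_eq]
  unfold avgP
  rw [← Sr_card r, hcc]
  set N : ℝ := ((Pset 2 m).card : ℝ) with hNdef
  set n : ℕ → ℝ := fun b => ((Pc r b m).card : ℝ) with hn
  set E : ℝ := ε' * 2 ^ m / m with hEdef
  have hcard : ∀ b ∈ S, |n b * S.card - N| ≤ S.card * E := by
    intro b hb
    have h1 : n b * S.card - N = ∑ b' ∈ S, (n b - n b') := by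
      rw [sum_sub_distrib, sum_const, nsmul_eq_mul, hone]
      ring
    rw [h1]
    calc |∑ b' ∈ S, (n b - n b')| ≤ ∑ b' ∈ S, |n b - n b'| := abs_sum_le_sum_abs _ _
      _ ≤ ∑ b' ∈ S, E := sum_le_sum fun b' hb' => hf b b' hb hb' m (hfm b hb b' hb')
      _ = S.card * E := by rw [sum_const, nsmul_eq_mul]
  have e1 : (∑ p ∈ Pset 2 m, cs (q : ℝ) (p * d)) / N - (∑ b ∈ Sr r, cs (q : ℝ) (b * d)) / S.card
      = (∑ b ∈ S, (n b * S.card - N) * cs (q : ℝ) (b * d)) / (N * S.card) := by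
    rw [hsum, div_sub_div _ _ hN.ne' hSR.ne']
    congr 1
    simp only [sub_mul, sum_sub_distrib, sum_mul, mul_sum]
    congr 1
    · apply sum_congr rfl
      intro b _
      simp only [hn]
      ring
  rw [e1, abs_div, abs_of_pos (show (0 : ℝ) < N * S.card by positivity), div_lt_iff₀ (by positivity)]
  calc |∑ b ∈ S, (n b * S.card - N) * cs (q : ℝ) (b * d)|
      ≤ ∑ b ∈ S, |(n b * S.card - N) * cs (q : ℝ) (b * d)| := abs_sum_le_sum_abs _ _
    _ ≤ ∑ b ∈ S, (S.card * E) * 1 := by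
        apply sum_le_sum
        intro b hb
        rw [abs_mul]
        exact mul_le_mul (hcard b hb) (abs_cs_le _ _) (abs_nonneg _) (by positivity)
    _ = S.card * (S.card * E) := by rw [sum_const, nsmul_eq_mul, mul_one]
    _ = (ε / 2) * (c * 2 ^ m / m) * S.card := by
        rw [hEdef, hε']
        field_simp
    _ ≤ (ε / 2) * N * S.card := by gcongr
    _ < ε * (N * S.card) := by
        have h9 : 0 < ε * (N * S.card) := by positivity
        have e9 : (ε / 2) * N * S.card = (ε * (N * S.card)) / 2 := by ring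
        rw [e9]
        linarith

end

end Pool.Agent.H85.LF
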