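import Pool.Agent.H28.LF.F1
import Pool.Agent.H85.LF.EN4

/-!
Project LF (`MP_c59857_nt`): rows DCN and DCC, entropy decrement for words.
-/

set_option autoImplicit false

open MeasureTheory ProbabilityTheory Filter Topology Finset

namespace Pool.Agent.H85.LF

open Pool.Agent.H24.MR (FinAddInv)
open Pool.Agent.H24.T2 (Pset)
open Pool.Agent.H28.LF (T_DCN T_DCC DcN DcO Wa)
open Pool.Agent.H67.AG (T_ME)

theorem Wa_succ {α : Type} (a : ℕ → α) (R p y : ℕ) : Wa Nat.succ a R p y = wrd a R p y := by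
  funext i
  simp only [Wa, wrd, Nat.succ_iterate]

/-- row DCN -/
theorem pf_DCN : T_DCN := by
  intro α _ R m₀ θ ρ hθ hρ
  obtain ⟨c₀, hc₀, hen⟩ := en3
  obtain ⟨M, wt, hM, hsum, hmain⟩ := hen 1 R α θ ρ (m₀ + 1) one_pos hθ hρ
  have h1m : ∀ m ∈ M, 1 ≤ m := fun m hm => by have := (hM m hm).1; omega
  refine ⟨M, wt, fun m hm => ⟨by have := (hM m hm).1; omega, ?_, (hM m hm).2.2⟩, hsum, ?_⟩
  · have h := (hM m hm).2.1
    rw [Pset_one_two (h1m m hm)] at h
    rw [← Finset.card_pos]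
    have h2 : (0 : ℝ) < m := by exact_mod_cast h1m m hm
    have h3 : 0 < c₀ * 2 ^ m / ((Nat.totient 1 : ℕ) * (m : ℝ)) := by
      simp only [Nat.totient_one, Nat.cast_one, one_mul]
      positivity
    exact_mod_cast lt_of_lt_of_le h3 h
  · intro ν hν a B hB hnd
    refine hmain ν hν a 0 B hB fun m hm hdec => hnd m hm ?_
    obtain ⟨X, hX, hX2⟩ := hdec
    rw [Pset_one_two (h1m m (hB hm))] at hX hX2
    refine ⟨X, hX, fun p hp hpX G => ?_⟩
    have h := hX2 p hp hpX G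
    have e1 : {y | Wa Nat.succ a R p y ∈ G} = {y | y ≡ 0 [MOD 1] ∧ wrd a R p y ∈ G} := by
      ext y
      simp only [Set.mem_ofPred_eq, Wa_succ]
      exact ⟨fun h => ⟨Nat.modEq_one, h⟩, fun h => h.2⟩
    have e2 : {y | p ∣ y ∧ Wa Nat.succ a R p y ∈ G} =
        {y | y ≡ 0 [MOD 1] ∧ p ∣ y ∧ wrd a R p y ∈ G} := by
      ext y
      simp only [Set.mem_ofPred_eq, Wa_succ]
      exact ⟨fun h => ⟨Nat.modEq_one, h⟩, fun h => h.2⟩
    rw [e1, e2]
    simpa using h

/-- the residues of a periodic flag -/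
theorem flag_residue {Ω : Type} [MeasurableSpace Ω] {κ : Measure Ω} {T : Ω ≃ᵐ Ω}
    (hT : MeasurePreserving T κ κ) (D : Set Ω) (p : ℕ)
    (h : ∀ᵐ ω ∂κ, (ω ∈ D ↔ T^[p] ω ∈ D) ∧ ∃! i : ℕ, i < p ∧ T^[i] ω ∈ D) :
    ∀ᵐ ω ∂κ, ∃ r : ℕ, ∀ n, T^[n] ω ∈ D ↔ p ∣ n + r := by
  have h1 : ∀ n : ℕ, ∀ᵐ ω ∂κ, (T^[n] ω ∈ D ↔ T^[p] (T^[n] ω) ∈ D) ∧
      ∃! i : ℕ, i < p ∧ T^[i] (T^[n] ω) ∈ D := by
    intro n
    exact (hT.iterate n).quasiMeasurePreserving.ae h
  have h2 := ae_all_iff.2 h1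
  filter_upwards [h2] with ω hω
  have hstep : ∀ n, T^[n] ω ∈ D ↔ T^[n + p] ω ∈ D := by
    intro n
    have h3 := (hω n).1
    rw [← Function.iterate_add_apply, Nat.add_comm] at h3
    exact h3
  have hmul : ∀ k n, T^[n] ω ∈ D ↔ T^[n + p * k] ω ∈ D := by
    intro k
    induction k with
    | zero => intro n; simp
    | succ k ih =>
      intro n
      rw [ih n, hstep (n + p * k)]
      have e : n + p * k + p = n + p * (k + 1) := by ring
      rw [e]
  obtain ⟨i, ⟨hi, hiD⟩, huniq⟩ := (hω 0).2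
  simp only [Function.iterate_zero, id_eq] at hiD huniq
  refine ⟨p - i, fun n => ?_⟩
  have hn : T^[n] ω ∈ D ↔ T^[n % p] ω ∈ D := by
    have h4 := hmul (n / p) (n % p)
    rw [Nat.mod_add_div] at h4
    exact h4.symm
  rw [hn]
  have hp : 0 < p := by omega
  have hlt := Nat.mod_lt n hp
  constructor
  · intro h5
    have h6 := huniq (n % p) ⟨hlt, h5⟩
    have h7 : n + (p - i) = p * (n / p + 1) := by
      have h8 := Nat.mod_add_div n p
      rw [Nat.mul_add, Nat.mul_one]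
      omega
    rw [h7]
    exact Dvd.intro _ rfl
  · intro h5
    have h6 : n % p = i := by
      have h8 := Nat.mod_add_div n p
      have h9 : p ∣ n % p + (p - i) := by
        have h10 : n + (p - i) = (n % p + (p - i)) + p * (n / p) := by omega
        rw [h10] at h5
        exact (Nat.dvd_add_left (Dvd.intro _ rfl)).1 h5
      obtain ⟨c, hc⟩ := h9
      have h11 : c = 1 := by
        rcases Nat.lt_or_ge c 1 with h | h
        · have : c = 0 := by omega
          subst this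
          omega
        rcases Nat.lt_or_ge 1 c with h' | h'
        · have h12 : p * 2 ≤ p * c := Nat.mul_le_mul_left _ h'
          omega
        · omega
      subst h11
      omega
    rw [h6]
    exact hiD

/-- row DCC -/
theorem pf_DCC (hME : T_ME) : T_DCC := by
  intro α _ _ _ R m₀ θ ρ hθ hρ
  obtain ⟨M, wt, hM, hsum, hmain⟩ := en4 hME R α θ ρ m₀ hθ hρ
  refine ⟨M, wt, hM, hsum, ?_⟩
  intro Ω _ κ _ T a fl hT ha hfl hper B hB hnd
  refine hmain Ω κ T a fl hT ha hfl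
    (fun p hp => flag_residue hT.toMeasurePreserving (fl p) p (hper p hp)) B hB
    fun m hm hdec => hnd m hm ?_
  exact hdec

end Pool.Agent.H85.LF
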