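import Pool.Agent.H18.T2.EN2

/-!
ENTROPY DECREMENT FOR WORDS (project LF, `MP_c59857_nt`, page `H28_LF.md`, 8.7): most scales of a
fixed finite weighted set of dense scales decouple the words of length `k` of every sequence
over a finite alphabet, uniformly in the finitely additive invariant measure and in the sequence.
-/

set_option autoImplicit false

namespace Pool.Agent.H85.LF

open Finset Filter
open Pool.Agent.H24.MR Pool.Agent.H59.MR Pool.Agent.H18.MR

section blocks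

variable {ν : Set ℕ → ℝ} (hν : FinAddInv ν) {Q u0 : ℕ} (hQ : 0 < Q)
variable {α : Type} [Fintype α] [DecidableEq α]

/-- The block of length `Q * n` of the sequence `a` starting at `y`. -/
def bw (a : ℕ → α) (Q n : ℕ) (y : ℕ) : Fin (Q * n) → α := fun j => a (y + j)

/-- the word of length `k` which is seen along the prime `p` -/
def wrd (a : ℕ → α) (k p : ℕ) (y : ℕ) : Fin k → α := fun i => a (y + p * ((i : ℕ) + 1))

/-- The subadditivity of block entropies given the residue mod `M`. -/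
theorem ent_bw_mul (a : ℕ → α) (n M : ℕ) [NeZero M] (k : ℕ) :
    ent (condP ν hν Q u0 hQ) (fun y : ℕ => (bw a Q (k * n) y, (y : ZMod M))) +
      k * ent (condP ν hν Q u0 hQ) (fun y : ℕ => (y : ZMod M)) ≤
    k * ent (condP ν hν Q u0 hQ) (fun y : ℕ => (bw a Q n y, (y : ZMod M))) +
      ent (condP ν hν Q u0 hQ) (fun y : ℕ => (y : ZMod M)) := by
  set μ := condP ν hν Q u0 hQ with hμ
  induction k with
  | zero =>
    have h := ent_comp_le μ (fun y : ℕ => (y : ZMod M))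
      (fun r => ((fun _ => a 0 : Fin (Q * (0 * n)) → α), r))
    have e : (fun y : ℕ => (bw a Q (0 * n) y, (y : ZMod M))) =
        fun y : ℕ => ((fun _ => a 0 : Fin (Q * (0 * n)) → α), (y : ZMod M)) := by
      funext y
      congr 1
      funext j
      exact absurd j.2 (by simp)
    rw [e]
    simp only [Nat.cast_zero, zero_mul, add_zero, zero_add]
    exact h
  | succ k ih =>
    set T : ℕ → ℕ := fun y => y + Q * (k * n) with hT
    have h1 := ent_submod μ (bw a Q (k * n)) (fun y => bw a Q n (T y)) (fun y : ℕ => (y : ZMod M))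
    have h2 : ent μ (fun y : ℕ => (bw a Q ((k + 1) * n) y, (y : ZMod M))) ≤
        ent μ (fun y => (bw a Q (k * n) y, bw a Q n (T y), (y : ZMod M))) := by
      have h := ent_comp_le μ (fun y => (bw a Q (k * n) y, bw a Q n (T y), (y : ZMod M)))
        (fun t => ((fun j => if h : (j : ℕ) < Q * (k * n) then t.1 ⟨j, h⟩ else
          t.2.1 ⟨j - Q * (k * n), by
            have := j.2
            have e : Q * ((k + 1) * n) = Q * (k * n) + Q * n := by ring
            omega⟩ : Fin (Q * ((k + 1) * n)) → α), t.2.2))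
      have e : (fun y : ℕ => (bw a Q ((k + 1) * n) y, (y : ZMod M))) =
          fun y : ℕ => ((fun j => if h : (j : ℕ) < Q * (k * n) then (bw a Q (k * n) y) ⟨j, h⟩ else
          (bw a Q n (T y)) ⟨j - Q * (k * n), by
            have := j.2
            have e : Q * ((k + 1) * n) = Q * (k * n) + Q * n := by ring
            omega⟩ : Fin (Q * ((k + 1) * n)) → α), (y : ZMod M)) := by
        funext y
        congr 1
        funext j
        by_cases hj : (j : ℕ) < Q * (k * n)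
        · rw [dif_pos hj]; rfl
        · rw [dif_neg hj]
          simp only [bw, hT]
          congr 1
          omega
      rw [e]
      exact h
    have h3 : ent μ (fun y => (bw a Q n (T y), (y : ZMod M))) ≤
        ent μ (fun y => (bw a Q n y, (y : ZMod M))) := by
      rw [← ent_shift hν hQ (fun y => (bw a Q n y, (y : ZMod M))) (k * n)]
      have h := ent_comp_le μ (fun y : ℕ => (bw a Q n (T y), ((T y : ℕ) : ZMod M)))
        (fun t => (t.1, t.2 - ((Q * (k * n) : ℕ) : ZMod M)))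
      have e : (fun y => (bw a Q n (T y), (y : ZMod M))) =
          fun y => (bw a Q n (T y), ((T y : ℕ) : ZMod M) - ((Q * (k * n) : ℕ) : ZMod M)) := by
        funext y
        congr 1
        simp only [hT]
        push_cast
        ring
      rw [e]
      exact h
    push_cast
    linarith

/-- The entropy decrement inequality. -/
theorem ent_bw_decr (a : ℕ → α) (n M : ℕ) [NeZero M] (h : Nat.Coprime Q M) (k : ℕ) :
    ent (condP ν hν Q u0 hQ) (bw a Q (k * n)) ≤
      k * (ent (condP ν hν Q u0 hQ) (bw a Q n) - miN (condP ν hν Q u0 hQ) (bw a Q n) M) +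
        Real.log M := by
  set μ := condP ν hν Q u0 hQ with hμ
  have h1 := ent_bw_mul hν hQ (u0 := u0) a n M k
  have h2 : ent μ (bw a Q (k * n)) ≤ ent μ (fun y : ℕ => (bw a Q (k * n) y, (y : ZMod M))) :=
    ent_comp_le μ (fun y : ℕ => (bw a Q (k * n) y, (y : ZMod M))) Prod.fst
  have h3 := ent_zmod hν hQ (u0 := u0) M h
  rw [miN_eq]
  unfold mi
  rw [← hμ] at h1 h3
  rw [h3] at h1 ⊢
  nlinarith

theorem prime_wrd (a : ℕ → α) {k : ℕ} (G : Set (Fin k → α)) (n p : ℕ) [NeZero p]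
    (hp : Nat.Coprime Q p) (hn : p * (Q + k) ≤ Q * n) :
    (1 - Real.exp (-1)) * (condP ν hν Q u0 hQ).P {y | wrd a k p y ∈ G} ≤
      miN (condP ν hν Q u0 hQ) (bw a Q n) p +
        p * (Q * ν {y | y ≡ u0 [MOD Q] ∧ p ∣ y ∧ wrd a k p y ∈ G}) := by
  classical
  set μ := condP ν hν Q u0 hQ with hμ
  have hp0 : 0 < p := Nat.pos_of_ne_zero (NeZero.ne p)
  set B : (Fin (Q * n) → α) → ZMod p → Prop := fun x r =>
    (fun i : Fin k => if h : Q * kk Q p r + p * ((i : ℕ) + 1) < Q * n then x ⟨_, h⟩ else a 0) ∈ G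
    with hB
  have hlt : ∀ (r : ZMod p) (i : Fin k), Q * kk Q p r + p * ((i : ℕ) + 1) < Q * n := by
    intro r i
    have h1 : kk Q p r < p := ZMod.val_lt _
    have h2 : kk Q p r + 1 ≤ p := h1
    have h3 : Q * (kk Q p r + 1) ≤ Q * p := Nat.mul_le_mul_left _ h2
    have h4 : p * ((i : ℕ) + 1) ≤ p * k := Nat.mul_le_mul_left _ i.2
    nlinarith
  have hBiff : ∀ (y : ℕ) (r : ZMod p), B (bw a Q n y) r ↔
      y + Q * kk Q p r ∈ {y | wrd a k p y ∈ G} := by
    intro y r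
    simp only [hB, Set.mem_ofPred_eq]
    have : (fun i : Fin k => if h : Q * kk Q p r + p * ((i : ℕ) + 1) < Q * n then
        bw a Q n y ⟨_, h⟩ else a 0) = wrd a k p (y + Q * kk Q p r) := by
      funext i
      rw [dif_pos (hlt r i)]
      simp only [bw, wrd]
      congr 1
      omega
    rw [this]
  have dv := dv_event μ (bw a Q n) (fun y : ℕ => (y : ZMod p)) B
  -- the product side
  have hprod : ∑ x, ∑ r, law μ (bw a Q n) x * law μ (fun y : ℕ => (y : ZMod p)) r *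
      (if B x r then 1 else 0) = μ.P {y | wrd a k p y ∈ G} := by
    rw [Finset.sum_comm]
    have : ∀ r : ZMod p, ∑ x, law μ (bw a Q n) x * law μ (fun y : ℕ => (y : ZMod p)) r *
        (if B x r then 1 else 0) = 1 / p * μ.P {y | wrd a k p y ∈ G} := by
      intro r
      have e : ∀ x, law μ (bw a Q n) x * law μ (fun y : ℕ => (y : ZMod p)) r *
        (if B x r then 1 else 0) = 1 / p * (law μ (bw a Q n) x * (if B x r then 1 else 0)) := by
        intro x
        rw [law_zmod hν hQ p hp r]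
        ring
      rw [Finset.sum_congr rfl (fun x _ => e x), ← Finset.mul_sum, sum_law_ind]
      congr 1
      have : {y | B (bw a Q n y) r} =
          {y | y + Q * kk Q p r ∈ {y | wrd a k p y ∈ G}} := by
        ext y; exact hBiff y r
      rw [this]
      exact condP_shift hν hQ _ _
    rw [Finset.sum_congr rfl (fun r _ => this r)]
    simp only [Finset.sum_const, Finset.card_univ, ZMod.card, nsmul_eq_mul]
    have : (p : ℝ) ≠ 0 := by positivity
    field_simp
  -- the joint side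
  have hjoint : ∑ x, ∑ r, law μ (fun y => (bw a Q n y, ((y : ℕ) : ZMod p))) (x, r) *
      (if B x r then 1 else 0) = p * (Q * ν {y | y ≡ u0 [MOD Q] ∧ p ∣ y ∧ wrd a k p y ∈ G}) := by
    rw [Finset.sum_comm]
    have : ∀ r : ZMod p, ∑ x, law μ (fun y => (bw a Q n y, ((y : ℕ) : ZMod p))) (x, r) *
      (if B x r then 1 else 0) = Q * ν {y | y ≡ u0 [MOD Q] ∧ p ∣ y ∧ wrd a k p y ∈ G} := by
      intro r
      have h := sum_law_joint μ (bw a Q n) (fun y : ℕ => (y : ZMod p)) r (fun x => B x r)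
      rw [h]
      have : {y : ℕ | B (bw a Q n y) r ∧ ((y : ℕ) : ZMod p) = r} =
          {y | y + Q * kk Q p r ∈ {y | p ∣ y ∧ wrd a k p y ∈ G}} := by
        ext y
        simp only [Set.mem_ofPred_eq]
        rw [hBiff, dvd_add_kk hp]
        simp only [Set.mem_ofPred_eq]
        tauto
      rw [this, hμ, condP_shift hν hQ, condP_apply]
      rfl
    rw [Finset.sum_congr rfl (fun r _ => this r)]
    simp only [Finset.sum_const, Finset.card_univ, ZMod.card, nsmul_eq_mul]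
  rw [hprod, hjoint] at dv
  rw [miN_eq]
  exact dv

/-- decoupling at scale `m`: for most primes `p` of the scale every set of words which is rare
on the multiples of `p` is rare -/
def DecW (k : ℕ) (ν : Set ℕ → ℝ) (a : ℕ → α) (Q u₀ : ℕ) (θ : ℝ) (m : ℕ) : Prop :=
  ∃ X : Finset ℕ, (X.card : ℝ) ≤ θ * (Pset Q m).card ∧
    ∀ p ∈ Pset Q m, p ∉ X → ∀ G : Set (Fin k → α),
      ν {y | y ≡ u₀ [MOD Q] ∧ wrd a k p y ∈ G} ≤
        10 * (p * ν {y | y ≡ u₀ [MOD Q] ∧ p ∣ y ∧ wrd a k p y ∈ G}) + θ / Q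

theorem decW_of_mi (a : ℕ → α) {k : ℕ} (θ : ℝ) (hθ : 0 < θ) (m : ℕ)
    (hI : miN (condP ν hν Q u0 hQ) (bw a Q (Pool.Agent.H18.T2.nn Q k m)) (∏ p ∈ Pset Q m, p) ≤
      θ ^ 2 / 2 * (Pset Q m).card) :
    DecW k ν a Q u0 θ m := by
  classical
  set μ := condP ν hν Q u0 hQ with hμ
  set L := Pool.Agent.H18.T2.nn Q k m with hL
  have hQ0 : (0:ℝ) < Q := by exact_mod_cast hQ
  refine ⟨(Pset Q m).filter (fun p => ¬ miN μ (bw a Q L) p ≤ θ / 2), ?_, ?_⟩
  · have h1 := sum_miN_le hν hQ (u0 := u0) (bw a Q L) (Pset Q m)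
      (fun p hp => (mem_Pset.1 hp).2.1) (fun p hp => coprime_of_mod_one (mem_Pset.1 hp).2.2)
    rw [← hμ] at h1
    have h2 := h1.trans hI
    have h3 : ∑ p ∈ (Pset Q m).filter (fun p => ¬ miN μ (bw a Q L) p ≤ θ / 2),
        θ / 2 ≤ ∑ p ∈ Pset Q m, miN μ (bw a Q L) p := by
      calc _ ≤ ∑ p ∈ (Pset Q m).filter (fun p => ¬ miN μ (bw a Q L) p ≤ θ / 2),
            miN μ (bw a Q L) p := by
            apply Finset.sum_le_sum
            intro p hp
            exact (not_le.1 (Finset.mem_filter.1 hp).2).le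
        _ ≤ _ := Finset.sum_le_sum_of_subset_of_nonneg (Finset.filter_subset _ _)
            (fun p _ _ => miN_nonneg μ _ p)
    rw [Finset.sum_const, nsmul_eq_mul] at h3
    have h7 := h3.trans h2
    have h8 : θ / 2 * (((Pset Q m).filter
        (fun p => ¬ miN μ (bw a Q L) p ≤ θ / 2)).card : ℝ) ≤
        θ / 2 * (θ * (Pset Q m).card) := by
      calc _ = (((Pset Q m).filter
            (fun p => ¬ miN μ (bw a Q L) p ≤ θ / 2)).card : ℝ) * (θ / 2) := mul_comm _ _
        _ ≤ _ := h7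
        _ = _ := by ring
    exact le_of_mul_le_mul_left h8 (by positivity)
  · intro p hp hpX G
    have hp' : p ∈ Pset Q m := hp
    have hp1 := mem_Pset.1 hp'
    have hp2 : miN μ (bw a Q L) p ≤ θ / 2 := by
      by_contra hcon
      exact hpX (Finset.mem_filter.2 ⟨hp', hcon⟩)
    have : NeZero p := ⟨hp1.2.1.ne_zero⟩
    have hlen : p * (Q + k) ≤ Q * L := by
      simp only [hL, Pool.Agent.H18.T2.nn]
      calc p * (Q + k) ≤ 2 ^ (m + 1) * (Q + k) := Nat.mul_le_mul_right _ hp1.1.2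
        _ = 1 * ((Q + k) * 2 ^ (m + 1)) := by ring
        _ ≤ Q * ((Q + k) * 2 ^ (m + 1)) := Nat.mul_le_mul_right _ hQ
    have h := prime_wrd hν hQ (u0 := u0) a G L p (coprime_of_mod_one hp1.2.2) hlen
    rw [← hμ, hμ, condP_apply] at h
    simp only [Set.mem_ofPred_eq] at h
    rw [← hμ] at h
    have he : (1:ℝ) / 2 ≤ 1 - Real.exp (-1) := by
      have h1 : Real.exp (-1) ≤ 1 / 2 := by
        rw [Real.exp_neg, ← one_div]
        apply one_div_le_one_div_of_le (by norm_num)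
        have := Real.exp_one_gt_d9
        linarith
      linarith
    have hd := hν.nonneg {y | y ≡ u0 [MOD Q] ∧ wrd a k p y ∈ G}
    have hd2 := hν.nonneg {y | y ≡ u0 [MOD Q] ∧ p ∣ y ∧ wrd a k p y ∈ G}
    have hp0 : (0:ℝ) ≤ p := Nat.cast_nonneg p
    have h1 : (1:ℝ) / 2 * (Q * ν {y | y ≡ u0 [MOD Q] ∧ wrd a k p y ∈ G}) ≤
        θ / 2 + p * (Q * ν {y | y ≡ u0 [MOD Q] ∧ p ∣ y ∧ wrd a k p y ∈ G}) := by
      calc _ ≤ (1 - Real.exp (-1)) *
            (Q * ν {y | y ≡ u0 [MOD Q] ∧ wrd a k p y ∈ G}) := by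
            gcongr
        _ ≤ _ := h
        _ ≤ _ := by linarith
    have h2 : Q * ν {y | y ≡ u0 [MOD Q] ∧ wrd a k p y ∈ G} ≤
        Q * (10 * (p * ν {y | y ≡ u0 [MOD Q] ∧ p ∣ y ∧ wrd a k p y ∈ G}) + θ / Q) := by
      have e : Q * (10 * (p * ν {y | y ≡ u0 [MOD Q] ∧ p ∣ y ∧ wrd a k p y ∈ G}) + θ / Q) =
          10 * (p * (Q * ν {y | y ≡ u0 [MOD Q] ∧ p ∣ y ∧ wrd a k p y ∈ G})) + θ := by
        field_simp
      rw [e]
      have h3 : 0 ≤ p * (Q * ν {y | y ≡ u0 [MOD Q] ∧ p ∣ y ∧ wrd a k p y ∈ G}) := by positivity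
      linarith
    exact le_of_mul_le_mul_left h2 hQ0

include hν hQ in
omit [DecidableEq α] in
/-- the total weight of the bad scales is bounded independently of the number of scales -/
theorem bad_sumW_le (C : ℕ) (hC : 2 ≤ C) (a : ℕ → α) {k : ℕ} (θ : ℝ) (hθ : 0 < θ) (j1 : ℕ)
    (hj1 : ∀ j, j1 ≤ j → C ^ (j + 1) + (C + 1) * (j + 1) ≤ C ^ (j + 2)) (J : ℕ) (hJ : j1 ≤ J)
    (Bad : Finset ℕ) (hB : Bad ⊆ Ico (C ^ j1) (C ^ J)) (hbad : ∀ m ∈ Bad, ¬ DecW k ν a Q u0 θ m) :
    θ ^ 2 / (4 * (Q + k)) * ∑ m ∈ Bad, Pool.Agent.H18.T2.W C Q m ≤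
      2 * (C + 1) * (Q * Real.log (Fintype.card α)) + Real.log 4 := by
  classical
  have : Nonempty α := ⟨a 0⟩
  set nn := Pool.Agent.H18.T2.nn with hnn
  set μ := condP ν hν Q u0 hQ with hμ
  set h : ℕ → ℝ := fun m => ent μ (bw a Q (nn Q k m)) / nn Q k m with hh
  set I : ℕ → ℝ := fun m => miN μ (bw a Q (nn Q k m)) (∏ p ∈ Pset Q m, p) / nn Q k m with hI
  have hQ0 : (0:ℝ) < Q := by exact_mod_cast hQ
  have hnn0 : ∀ m, (0:ℝ) < nn Q k m := Pool.Agent.H18.T2.nn_pos hQ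
  have hpos : ∀ m, 0 ≤ h m := fun m => div_nonneg (ent_nonneg μ _) (hnn0 m).le
  have hIpos : ∀ m, 0 ≤ I m := fun m => div_nonneg (miN_nonneg μ _ _) (hnn0 m).le
  have hlog4 : 0 ≤ Real.log 4 := Real.log_nonneg (by norm_num)
  have hH : ∀ m, h m ≤ Q * Real.log (Fintype.card α) := by
    intro m
    simp only [hh]
    rw [div_le_iff₀ (hnn0 m)]
    refine (ent_le_log_card μ _).trans ?_
    rw [Fintype.card_fun, Fintype.card_fin]
    push_cast
    rw [Real.log_pow]
    push_cast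
    exact le_of_eq (by ring)
  have hdec : ∀ m s, h (m + s) ≤ h m - I m + Real.log 4 / 2 ^ s := by
    intro m s
    have : NeZero (∏ p ∈ Pset Q m, p) := ⟨prod_Pset_ne_zero Q m⟩
    have h1 := ent_bw_decr hν hQ (u0 := u0) a (nn Q k m) (∏ p ∈ Pset Q m, p)
      (Nat.Coprime.prod_right fun p hp => coprime_of_mod_one (mem_Pset.1 hp).2.2) (2 ^ s)
    rw [← hμ] at h1
    have h2 := log_prod_Pset_le Q m
    have e : ent μ (bw a Q (nn Q k (m + s))) = ent μ (bw a Q (2 ^ s * nn Q k m)) := by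
      rw [hnn, Pool.Agent.H18.T2.nn_add]
    have h3 : (nn Q k (m + s) : ℝ) = 2 ^ s * nn Q k m := by
      rw [hnn, Pool.Agent.H18.T2.nn_add]; push_cast; ring
    simp only [hh, hI]
    rw [e, h3, div_le_iff₀ (by have := hnn0 m; positivity)]
    have h4 : (2:ℝ) ^ (m + 1) ≤ nn Q k m := by
      have : 2 ^ (m + 1) ≤ nn Q k m := by
        simp only [hnn, Pool.Agent.H18.T2.nn]
        exact Nat.le_mul_of_pos_left _ (by omega)
      exact_mod_cast this
    have h5 : (2:ℝ) ^ (m + 1) * Real.log 4 ≤ nn Q k m * Real.log 4 := by gcongr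
    have h6 : (ent μ (bw a Q (nn Q k m)) / (nn Q k m : ℝ) -
        miN μ (bw a Q (nn Q k m)) (∏ p ∈ Pset Q m, p) / (nn Q k m : ℝ) + Real.log 4 / 2 ^ s) *
        (2 ^ s * nn Q k m) = 2 ^ s * (ent μ (bw a Q (nn Q k m)) -
        miN μ (bw a Q (nn Q k m)) (∏ p ∈ Pset Q m, p)) + nn Q k m * Real.log 4 := by
      have := (hnn0 m).ne'
      field_simp
      try ring
    rw [h6]
    push_cast at h1 h2
    linarith
  have hanti : Antitone h := by
    apply antitone_nat_of_succ_le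
    intro m
    have h1 := ent_bw_decr hν hQ (u0 := u0) a (nn Q k m) 1 (Nat.coprime_one_right Q) (2 ^ 1)
    rw [← hμ] at h1
    have e : ent μ (bw a Q (nn Q k (m + 1))) = ent μ (bw a Q (2 ^ 1 * nn Q k m)) := by
      rw [hnn, Pool.Agent.H18.T2.nn_add]
    have h3 : (nn Q k (m + 1) : ℝ) = 2 ^ 1 * nn Q k m := by
      rw [hnn, Pool.Agent.H18.T2.nn_add]; push_cast; ring
    have h4 := miN_nonneg μ (bw a Q (nn Q k m)) 1
    simp only [hh]
    rw [e, h3, div_le_div_iff₀ (by have := hnn0 m; positivity) (hnn0 m)]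
    simp only [Nat.cast_one, Real.log_one, Nat.cast_ofNat, pow_one] at h1
    have h5 : ent μ (bw a Q (2 ^ 1 * nn Q k m)) ≤ 2 * ent μ (bw a Q (nn Q k m)) := by
      linarith
    have := hnn0 m
    nlinarith
  have main := Pool.Agent.H18.T2.weighted_sum_le h I hpos hanti (Real.log 4) hlog4 hdec C hC
    (Q * Real.log (Fintype.card α)) hH j1 hj1 J hJ
  refine le_trans ?_ main
  -- compare the bad weights with the decrements
  have e1 : ∑ j ∈ Ico j1 J, (1 / ((j : ℝ) + 1)) * ∑ m ∈ Ico (C ^ j) (C ^ (j + 1)), I m =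
      ∑ m ∈ Ico (C ^ j1) (C ^ J), (1 / ((Nat.log C m : ℝ) + 1)) * I m := by
    rw [Pool.Agent.H18.T2.sum_blocks C hC _ j1 J hJ]
    apply Finset.sum_congr rfl
    intro j _
    rw [Finset.mul_sum]
    apply Finset.sum_congr rfl
    intro m hm
    rw [Pool.Agent.H18.T2.log_block hm]
  rw [e1, Finset.mul_sum]
  calc ∑ m ∈ Bad, θ ^ 2 / (4 * (Q + k)) * Pool.Agent.H18.T2.W C Q m
      ≤ ∑ m ∈ Bad, (1 / ((Nat.log C m : ℝ) + 1)) * I m := by
        apply Finset.sum_le_sum
        intro m hm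
        have hnd := hbad m hm
        have h1 : θ ^ 2 / 2 * (Pset Q m).card <
            miN μ (bw a Q (nn Q k m)) (∏ p ∈ Pset Q m, p) := by
          by_contra hcon
          exact hnd (decW_of_mi hν hQ a θ hθ m (not_lt.1 hcon))
        have h2 : θ ^ 2 / (4 * (Q + k)) * (((Pset Q m).card : ℝ) / 2 ^ m) ≤ I m := by
          simp only [hI]
          rw [le_div_iff₀ (hnn0 m)]
          have e : θ ^ 2 / (4 * (Q + k)) * (((Pset Q m).card : ℝ) / 2 ^ m) * nn Q k m =
              θ ^ 2 / 2 * (Pset Q m).card := by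
            simp only [hnn, Pool.Agent.H18.T2.nn]
            push_cast
            have h1 : (Q:ℝ) + k ≠ 0 := by positivity
            field_simp
            ring
          rw [e]
          exact h1.le
        calc θ ^ 2 / (4 * (Q + k)) * Pool.Agent.H18.T2.W C Q m
            = (1 / ((Nat.log C m : ℝ) + 1)) *
              (θ ^ 2 / (4 * (Q + k)) * (((Pset Q m).card : ℝ) / 2 ^ m)) := by
              unfold Pool.Agent.H18.T2.W; ring
          _ ≤ _ := by gcongr
    _ ≤ _ := by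
        apply Finset.sum_le_sum_of_subset_of_nonneg hB
        intro m _ _
        have := hIpos m
        positivity

end blocks

open Pool.Agent.H18.T2 in
/-- [EN3] entropy decrement for words, uniform in the measure and the sequence -/
theorem en3 : ∃ c₀ : ℝ, 0 < c₀ ∧ ∀ (Q k : ℕ) (α : Type) [Fintype α] (θ ρ : ℝ) (m₀ : ℕ), 0 < Q →
    0 < θ → 0 < ρ → ∃ (M : Finset ℕ) (wt : ℕ → ℝ),
      (∀ m ∈ M, m₀ ≤ m ∧ c₀ * 2 ^ m / (Nat.totient Q * m) ≤ ((Pset Q m).card : ℝ) ∧ 0 ≤ wt m) ∧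
      ∑ m ∈ M, wt m = 1 ∧
      ∀ ν : Set ℕ → ℝ, FinAddInv ν → ∀ a : ℕ → α, ∀ u₀ : ℕ,
        ∀ Bad : Finset ℕ, Bad ⊆ M → (∀ m ∈ Bad, ¬ DecW k ν a Q u₀ θ m) → ∑ m ∈ Bad, wt m ≤ ρ := by
  classical
  obtain ⟨C, c, hC, hc, hM⟩ := Pool.Agent.H62.MR.me
  have hC0 : (0:ℝ) < C := by exact_mod_cast (by omega : 0 < C)
  refine ⟨c / (2 * C), by positivity, ?_⟩
  intro Q k α _ θ ρ m₀ hQ hθ hρ
  have hQ0 : (0:ℝ) < Q := by exact_mod_cast hQ
  have hφ0 : (0:ℝ) < Nat.totient Q := by exact_mod_cast Nat.totient_pos.2 hQ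
  obtain ⟨x₀, hx₀⟩ := hM Q hQ
  obtain ⟨j0, hj0⟩ := exists_start C hC
  set j1 : ℕ := max (max j0 m₀) ⌈x₀⌉₊ with hj1
  have hj1a : j0 ≤ j1 := (le_max_left _ _).trans (le_max_left _ _)
  have hj1b : m₀ ≤ j1 := (le_max_right _ _).trans (le_max_left _ _)
  have hj1c : ⌈x₀⌉₊ ≤ j1 := le_max_right _ _
  have hjC : ∀ j, j ≤ C ^ j := fun j => (Nat.lt_pow_self (by omega)).le
  have hmert : ∀ j, j1 ≤ j → c / (Nat.totient Q : ℝ) ≤
      ∑ p ∈ (Ioc (2 ^ C ^ j) ((2 ^ C ^ j) ^ C)).filter (fun p => p.Prime ∧ p ≡ 1 [MOD Q]),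
        (1 / (p : ℝ)) := by
    intro j hj
    have hx : x₀ ≤ ((2 ^ C ^ j : ℕ) : ℝ) := by
      have h1 : ⌈x₀⌉₊ ≤ 2 ^ C ^ j :=
        hj1c.trans (hj.trans ((hjC j).trans (Nat.lt_two_pow_self).le))
      exact (Nat.le_ceil x₀).trans (by exact_mod_cast h1)
    have h := hx₀ _ hx
    have e : ⌊((2 ^ C ^ j : ℕ) : ℝ) ^ C⌋₊ = (2 ^ C ^ j) ^ C := by
      rw [← Nat.cast_pow, Nat.floor_natCast]
    rw [Nat.floor_natCast, e] at h
    exact h
  set B : ℝ := 2 * (C + 1) * (Q * Real.log (Fintype.card α)) + Real.log 4 with hB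
  set w : ℝ := θ ^ 2 / (4 * (Q + k)) with hw
  have hw0 : 0 < w := by positivity
  set D : ℕ → Prop := fun m => c / (2 * C) * 2 ^ m / (Nat.totient Q * m) ≤ ((Pset Q m).card : ℝ)
    with hD
  -- total weight
  have htot : ∀ J, j1 ≤ J → c / (2 * Nat.totient Q) * (∑ j ∈ Ico j1 J, (1 / ((j : ℝ) + 1))) ≤
      ∑ m ∈ (Ico (C ^ j1) (C ^ J)).filter D, W C Q m := by
    intro J hJ
    rw [Finset.sum_filter, sum_blocks C hC _ j1 J hJ, Finset.mul_sum]
    apply Finset.sum_le_sum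
    intro j hj
    have h1 := dense_block C hC c hc Q hQ j (hmert j (Finset.mem_Ico.1 hj).1)
    rw [← Finset.sum_filter]
    have e : ∑ m ∈ (Ico (C ^ j) (C ^ (j + 1))).filter D, W C Q m =
        (1 / ((j : ℝ) + 1)) * ∑ m ∈ (Ico (C ^ j) (C ^ (j + 1))).filter D,
          ((Pset Q m).card : ℝ) / 2 ^ m := by
      rw [Finset.mul_sum]
      apply Finset.sum_congr rfl
      intro m hm
      unfold W
      rw [log_block (Finset.mem_filter.1 hm).1]
    rw [e, mul_comm]
    gcongr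
  -- choose the number of blocks
  obtain ⟨J, hJ1, hJ2⟩ : ∃ J, j1 ≤ J ∧ (|B| + 1) / (w * min ρ 1) ≤
      ∑ m ∈ (Ico (C ^ j1) (C ^ J)).filter D, W C Q m := by
    have htop := Real.tendsto_sum_range_one_div_nat_succ_atTop
    obtain ⟨J, hJa, hJb⟩ := ((htop.eventually_ge_atTop
      ((|B| + 1) / (w * min ρ 1) / (c / (2 * Nat.totient Q)) +
        ∑ i ∈ range j1, (1 / ((i : ℝ) + 1)))).and (eventually_ge_atTop j1)).exists
    refine ⟨J, hJb, le_trans ?_ (htot J hJb)⟩
    rw [Finset.sum_Ico_eq_sub _ hJb]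
    have h0 : 0 < c / (2 * Nat.totient Q) := by positivity
    have h1 : (|B| + 1) / (w * min ρ 1) / (c / (2 * Nat.totient Q)) ≤
        ∑ i ∈ range J, (1 / ((i : ℝ) + 1)) - ∑ i ∈ range j1, (1 / ((i : ℝ) + 1)) := by linarith
    rw [div_le_iff₀ h0] at h1
    linarith
  set M := (Ico (C ^ j1) (C ^ J)).filter D with hMdef
  set T := ∑ m ∈ M, W C Q m with hT
  have hρ1 : 0 < min ρ 1 := lt_min hρ one_pos
  have hT0 : 0 < T := lt_of_lt_of_le (by positivity) hJ2
  refine ⟨M, fun m => W C Q m / T, ?_, ?_, ?_⟩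
  · intro m hm
    have h1 := Finset.mem_filter.1 hm
    have h2 := Finset.mem_Ico.1 h1.1
    refine ⟨hj1b.trans ((hjC j1).trans h2.1), h1.2, ?_⟩
    exact div_nonneg (W_nonneg C Q m) hT0.le
  · rw [← Finset.sum_div, ← hT, div_self hT0.ne']
  · intro ν hν a u₀ Bad hBad hnd
    have h1 := bad_sumW_le hν hQ C hC a θ hθ j1
      (fun j hj => hj0 j (hj1a.trans hj)) J hJ1 Bad
      (hBad.trans (Finset.filter_subset _ _)) hnd
    rw [← hw, ← hB] at h1
    rw [← Finset.sum_div, div_le_iff₀ hT0]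
    have h2 : w * ∑ m ∈ Bad, W C Q m ≤ |B| + 1 := h1.trans ((le_abs_self B).trans (by linarith))
    rw [div_le_iff₀ (by positivity)] at hJ2
    have h3 : w * ∑ m ∈ Bad, W C Q m ≤ w * (ρ * T) := by
      calc _ ≤ |B| + 1 := h2
        _ ≤ T * (w * min ρ 1) := hJ2
        _ ≤ T * (w * ρ) := by gcongr; exact min_le_left _ _
        _ = _ := by ring
    exact le_of_mul_le_mul_left h3 hw0

end Pool.Agent.H85.LF
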